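import Pool.Agent.Helper92.TG.Main

/-!
Monotonicity in the inverse temperature of the relaxation time of heat-bath Glauber dynamics for
the ferromagnetic Ising model on every finite graph in which all cycles are triangles (the blocks
are single edges and triangles), at all temperatures: triangular cacti, windmills, line graphs of
trees of maximum degree three, and so on, with arbitrary trees attached.
-/

set_option autoImplicit false

namespace Pool.Agent.Results.MP_e532e2_pr.OnlyTriangles

/-- The Ising measure at inverse temperature `t`, free boundary. The double sum counts every edge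
twice. -/
noncomputable def mu {n : ℕ} (G : SimpleGraph (Fin n)) [DecidableRel G.Adj] (t : ℝ)
    (σ : Fin n → Bool) : ℝ :=
  Real.exp (t / 2 * ∑ u : Fin n, ∑ v : Fin n,
      if G.Adj u v then (if σ u = σ v then (1 : ℝ) else -1) else 0) /
  ∑ τ : Fin n → Bool, Real.exp (t / 2 * ∑ u : Fin n, ∑ v : Fin n,
      if G.Adj u v then (if τ u = τ v then (1 : ℝ) else -1) else 0)

/-- The variance of `f` under the Ising measure. -/
noncomputable def Var {n : ℕ} (G : SimpleGraph (Fin n)) [DecidableRel G.Adj] (t : ℝ)
    (f : (Fin n → Bool) → ℝ) : ℝ :=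
  ∑ σ : Fin n → Bool, mu G t σ * (f σ - ∑ τ : Fin n → Bool, mu G t τ * f τ) ^ 2

/-- The Dirichlet form of heat-bath Glauber dynamics: a uniformly random vertex `v` is chosen and
its spin gets the value `b` with the conditional probability of `b` given the other spins. -/
noncomputable def Dir {n : ℕ} (G : SimpleGraph (Fin n)) [DecidableRel G.Adj] (t : ℝ)
    (f : (Fin n → Bool) → ℝ) : ℝ :=
  (1 / 2 : ℝ) * ∑ σ : Fin n → Bool, mu G t σ * ∑ v : Fin n, (1 / (n : ℝ)) *
    ∑ b : Bool, mu G t (Function.update σ v b) /
      (mu G t (Function.update σ v true) + mu G t (Function.update σ v false)) *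
      (f σ - f (Function.update σ v b)) ^ 2

/-- Let all cycles of the graph `G` have length `3`, and `0 ≤ β ≤ β'`. If the Poincare inequality
`c Var ≤ Dir` holds at `β'` then it holds at `β`. So the spectral gap (the largest such `c`) is
nonincreasing and the relaxation time is nondecreasing in `β`. -/
theorem result (n : ℕ) (G : SimpleGraph (Fin n)) [DecidableRel G.Adj]
    (hG : ∀ (v : Fin n) (C : G.Walk v v), C.IsCycle → C.length = 3)
    (β β' : ℝ) (h0 : 0 ≤ β) (h1 : β ≤ β') (c : ℝ)
    (h : ∀ f : (Fin n → Bool) → ℝ, c * Var G β' f ≤ Dir G β' f) :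
    ∀ f : (Fin n → Bool) → ℝ, c * Var G β f ≤ Dir G β f :=
  Pool.Agent.Helper92.TG.main n G hG β β' h0 h1 c h

end Pool.Agent.Results.MP_e532e2_pr.OnlyTriangles
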